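import Pool.Agent.R200.TreeAna

/-!
# MP_29bdbb_an, Q1: every entropy of a one-dimensional matrix shift is the entropy of a tree-shift
of finite type
-/

namespace Pool.Agent.Results.MP_29bdbb_an.MatrixEntropiesByTreeShifts

open Pool.Agent.R200.Tree

/-- For every square `0`-`1` matrix `A` with nonempty matrix shift there is a tree-shift of finite
type whose entropy exists and equals `ln ρ(A)`. -/
theorem result (k : ℕ) (E : Fin k → Fin k → Bool) (hne : (matrixShift E).Nonempty) :
    ∃ (d : ℕ) (α : Type) (_ : Finite α) (X : Set (List (Fin d) → α)),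
      2 ≤ d ∧ IsTSFT X ∧ X.Nonempty ∧ HasEntropy X (Real.log (rho E)) :=
  ⟨k + 2, Lab k, inferInstance, TX E, by omega, TX_tsft E,
    ⟨fun _ => none, fun _ _ => rfl⟩, main E hne⟩

end Pool.Agent.Results.MP_29bdbb_an.MatrixEntropiesByTreeShifts
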